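import Mathlib

/-!
# Two multi-affine polynomials of degree four with exponentially many components

For every `N ≥ 1` there are two multi-affine polynomials of total degree at most `4` in `3 N + 1`
variables whose common real zero set has at least `2 ^ N` connected components.

Construction: the polynomial `ψ = -3x² - 3y² - 5z² + 3xy - 5xz - 5yz + xyz(x + y + z)` has strict
local maxima at `(1, 1, -1)` and `(-1, -1, 1)`, both with value `1`, and has the form `A + (x+y+z) B`
with `A`, `B` multi-affine. So the sum of `N` copies of `ψ` in separate variables also has the form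
`A + F B`, where `F` is the sum of all variables and `A`, `B` are multi-affine. With a new variable
`t` the common zero set of `t - F` and `A - c + t B` is the level set `∑ ψ = c`.
-/

set_option autoImplicit false

open MvPolynomial Set Topology

namespace Pool.Agent.Results.MP_12b847_ag.UnboundedComponents

/-- A polynomial is multi-affine if it has degree at most one in each variable. -/
def MultiAffine {σ : Type} (P : MvPolynomial σ ℝ) : Prop := ∀ i, P.degreeOf i ≤ 1

/-- The set of common real zeros of `P` and `Q`. -/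
def zeros {n : ℕ} (P Q : MvPolynomial (Fin n) ℝ) : Set (Fin n → ℝ) :=
  {x | eval x P = 0 ∧ eval x Q = 0}

lemma components_ge {X ι : Type} [TopologicalSpace X] [Fintype ι] (U : ι → Set X)
    (hU : ∀ i, IsClopen (U i)) (hd : ∀ i j, i ≠ j → Disjoint (U i) (U j))
    (hne : ∀ i, (U i).Nonempty) :
    (Fintype.card ι : ℕ∞) ≤ ENat.card (ConnectedComponents X) := by
  choose z hz using hne
  have hinj : Function.Injective (fun i => (z i : ConnectedComponents X)) := by
    intro i j hij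
    by_contra hne
    have h1 : connectedComponent (z i) = connectedComponent (z j) :=
      ConnectedComponents.coe_eq_coe.mp hij
    have h2 : z j ∈ U i := (hU i).connectedComponent_subset (hz i) (h1 ▸ mem_connectedComponent)
    exact (Set.disjoint_left.mp (hd i j hne)) h2 (hz j)
  have := ENat.card_le_card_of_injective hinj
  simpa using this

/-! ## The block function -/

/-- The block function. -/
def psi (x y z : ℝ) : ℝ :=
  -3 * x ^ 2 - 3 * y ^ 2 - 5 * z ^ 2 + 3 * x * y - 5 * x * z - 5 * y * z + x * y * z * (x + y + z)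

lemma psi_neg (x y z : ℝ) : psi (-x) (-y) (-z) = psi x y z := by
  unfold psi; ring

lemma psi_le (u v w : ℝ) (hu : |u| ≤ 1 / 10) (hv : |v| ≤ 1 / 10) (hw : |w| ≤ 1 / 10) :
    psi (1 + u) (1 + v) (-1 + w) ≤ 1 - (u ^ 2 + v ^ 2 + w ^ 2) / 2 := by
  have e : psi (1 + u) (1 + v) (-1 + w) = 1 - ((2 * u + w) ^ 2 + (2 * v + w) ^ 2 + 2 * w ^ 2) +
      (u * v * w + (u * w + v * w - u * v) * (u + v + w)) + u * v * w * (u + v + w) := by
    unfold psi; ring
  rw [e]
  have hs : |u + v + w| ≤ 3 / 10 := by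
    have := abs_add_le (u + v) w
    have := abs_add_le u v
    linarith
  have m1 : |u * v| ≤ (u ^ 2 + v ^ 2) / 2 := by
    rw [abs_le]; constructor <;> nlinarith [sq_nonneg (u + v), sq_nonneg (u - v)]
  have m2 : |u * w| ≤ (u ^ 2 + w ^ 2) / 2 := by
    rw [abs_le]; constructor <;> nlinarith [sq_nonneg (u + w), sq_nonneg (u - w)]
  have m3 : |v * w| ≤ (v ^ 2 + w ^ 2) / 2 := by
    rw [abs_le]; constructor <;> nlinarith [sq_nonneg (v + w), sq_nonneg (v - w)]
  have c1 : u * v * w ≤ |u * v| * (1 / 10) :=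
    (le_abs_self _).trans (by rw [abs_mul]; exact mul_le_mul_of_nonneg_left hw (abs_nonneg _))
  have c2 : (u * w + v * w - u * v) * (u + v + w) ≤ (|u * w| + |v * w| + |u * v|) * (3 / 10) := by
    refine (le_abs_self _).trans ?_
    rw [abs_mul]
    refine mul_le_mul ?_ hs (abs_nonneg _) (by positivity)
    have := abs_add_le (u * w + v * w) (-(u * v))
    have := abs_add_le (u * w) (v * w)
    rw [abs_neg] at *
    rw [sub_eq_add_neg]
    linarith
  have c3 : u * v * w * (u + v + w) ≤ |u * v| * (1 / 10) * (3 / 10) := by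
    refine (le_abs_self _).trans ?_
    rw [abs_mul]
    refine mul_le_mul ?_ hs (abs_nonneg _) (by positivity)
    rw [abs_mul]; exact mul_le_mul_of_nonneg_left hw (abs_nonneg _)
  nlinarith [sq_nonneg (u + 2 / 3 * w), sq_nonneg (v + 2 / 3 * w), sq_nonneg w, sq_nonneg u, sq_nonneg v]

/-! ## The polynomials -/

section MA
variable {σ : Type}

lemma d_add {i : σ} {p q : MvPolynomial σ ℝ} {k : ℕ} (hp : p.degreeOf i ≤ k) (hq : q.degreeOf i ≤ k) :
    (p + q).degreeOf i ≤ k := (degreeOf_add_le _ _ _).trans (max_le hp hq)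

lemma d_mul {i : σ} {p q : MvPolynomial σ ℝ} {k l m : ℕ} (hp : p.degreeOf i ≤ k) (hq : q.degreeOf i ≤ l)
    (h : k + l ≤ m) : (p * q).degreeOf i ≤ m :=
  ((degreeOf_mul_le _ _ _).trans (add_le_add hp hq)).trans h

lemma d_C (i : σ) (c : ℝ) (k : ℕ) : (C c : MvPolynomial σ ℝ).degreeOf i ≤ k := by simp

lemma d_Cmul {i : σ} {c : ℝ} {p : MvPolynomial σ ℝ} {k : ℕ} (hp : p.degreeOf i ≤ k) :
    (C c * p).degreeOf i ≤ k := (degreeOf_C_mul_le _ _ _).trans hp

lemma d_sum {ι : Type} {i : σ} {s : Finset ι} {f : ι → MvPolynomial σ ℝ} {k : ℕ}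
    (h : ∀ j ∈ s, (f j).degreeOf i ≤ k) : (∑ j ∈ s, f j).degreeOf i ≤ k :=
  (degreeOf_sum_le _ _ _).trans (Finset.sup_le h)

lemma t_add {p q : MvPolynomial σ ℝ} {k : ℕ} (hp : p.totalDegree ≤ k) (hq : q.totalDegree ≤ k) :
    (p + q).totalDegree ≤ k := (totalDegree_add _ _).trans (max_le hp hq)

lemma t_mul {p q : MvPolynomial σ ℝ} {k l m : ℕ} (hp : p.totalDegree ≤ k) (hq : q.totalDegree ≤ l)
    (h : k + l ≤ m) : (p * q).totalDegree ≤ m :=
  ((totalDegree_mul _ _).trans (add_le_add hp hq)).trans h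

lemma t_C (c : ℝ) (k : ℕ) : (C c : MvPolynomial σ ℝ).totalDegree ≤ k := by simp

lemma t_Cmul {c : ℝ} {p : MvPolynomial σ ℝ} {k : ℕ} (hp : p.totalDegree ≤ k) :
    (C c * p).totalDegree ≤ k := t_mul (t_C c 0) hp (by omega)

lemma t_X (i : σ) {k : ℕ} (h : 1 ≤ k) : (X i : MvPolynomial σ ℝ).totalDegree ≤ k := by
  rw [totalDegree_X]; exact h

lemma t_sum {ι : Type} {s : Finset ι} {f : ι → MvPolynomial σ ℝ} {k : ℕ}
    (h : ∀ j ∈ s, (f j).totalDegree ≤ k) : (∑ j ∈ s, f j).totalDegree ≤ k :=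
  totalDegree_finsetSum_le h

end MA

variable {N : ℕ}

abbrev Sg (N : ℕ) : Type := Option (Fin N × Fin 3)

noncomputable def xx (b : Fin N) (k : Fin 3) : MvPolynomial (Sg N) ℝ := X (some (b, k))

noncomputable def eP (b : Fin N) : MvPolynomial (Sg N) ℝ := xx b 0 + xx b 1 + xx b 2

noncomputable def bP (b : Fin N) : MvPolynomial (Sg N) ℝ :=
  xx b 0 * xx b 1 * xx b 2 + C (-3) * xx b 0 + C (-3) * xx b 1 + C (-5) * xx b 2

noncomputable def aP (b : Fin N) : MvPolynomial (Sg N) ℝ :=
  C 9 * (xx b 0 * xx b 1) + C 3 * (xx b 0 * xx b 2) + C 3 * (xx b 1 * xx b 2)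

lemma d_xx (b c : Fin N) (k l : Fin 3) :
    (xx b k).degreeOf (some (c, l)) = if c = b ∧ l = k then 1 else 0 := by
  classical
  rw [xx, degreeOf_X]; simp

lemma d_xx' (b : Fin N) (k : Fin 3) : (xx b k).degreeOf none = 0 := by
  classical
  rw [xx, degreeOf_X]; simp

lemma d_e (b c : Fin N) (l : Fin 3) : (eP b).degreeOf (some (c, l)) ≤ if c = b then 1 else 0 := by
  refine d_add (d_add ?_ ?_) ?_ <;> rw [d_xx] <;> split_ifs <;> simp_all

lemma d_e' (b : Fin N) : (eP b).degreeOf none ≤ 0 := by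
  refine d_add (d_add ?_ ?_) ?_ <;> rw [d_xx']

lemma d_b (b c : Fin N) (l : Fin 3) : (bP b).degreeOf (some (c, l)) ≤ if c = b then 1 else 0 := by
  refine d_add (d_add (d_add (d_mul (d_mul (d_xx _ _ _ _).le (d_xx _ _ _ _).le le_rfl)
    (d_xx _ _ _ _).le ?_) (d_Cmul ?_)) (d_Cmul ?_)) (d_Cmul ?_)
  · fin_cases l <;> simp
  all_goals rw [d_xx]; split_ifs <;> simp_all

lemma d_b' (b : Fin N) : (bP b).degreeOf none ≤ 0 := by
  refine d_add (d_add (d_add (d_mul (d_mul (d_xx' _ _).le (d_xx' _ _).le le_rfl)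
    (d_xx' _ _).le le_rfl) (d_Cmul ?_)) (d_Cmul ?_)) (d_Cmul ?_) <;> rw [d_xx']

lemma d_a (b c : Fin N) (l : Fin 3) : (aP b).degreeOf (some (c, l)) ≤ if c = b then 1 else 0 := by
  refine d_add (d_add (d_Cmul (d_mul (d_xx _ _ _ _).le (d_xx _ _ _ _).le ?_))
    (d_Cmul (d_mul (d_xx _ _ _ _).le (d_xx _ _ _ _).le ?_)))
    (d_Cmul (d_mul (d_xx _ _ _ _).le (d_xx _ _ _ _).le ?_)) <;> fin_cases l <;> simp

lemma d_a' (b : Fin N) : (aP b).degreeOf none ≤ 0 := by
  refine d_add (d_add (d_Cmul (d_mul (d_xx' _ _).le (d_xx' _ _).le le_rfl))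
    (d_Cmul (d_mul (d_xx' _ _).le (d_xx' _ _).le le_rfl)))
    (d_Cmul (d_mul (d_xx' _ _).le (d_xx' _ _).le le_rfl))

lemma t_e (b : Fin N) : (eP b).totalDegree ≤ 1 :=
  t_add (t_add (t_X _ le_rfl) (t_X _ le_rfl)) (t_X _ le_rfl)

lemma t_b (b : Fin N) : (bP b).totalDegree ≤ 3 :=
  t_add (t_add (t_add (t_mul (t_mul (t_X _ le_rfl) (t_X _ le_rfl) le_rfl) (t_X _ le_rfl) (by norm_num))
    (t_Cmul (t_X _ (by norm_num)))) (t_Cmul (t_X _ (by norm_num)))) (t_Cmul (t_X _ (by norm_num)))

lemma t_a (b : Fin N) : (aP b).totalDegree ≤ 4 :=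
  t_add (t_add (t_Cmul (t_mul (t_X _ le_rfl) (t_X _ le_rfl) (by norm_num)))
    (t_Cmul (t_mul (t_X _ le_rfl) (t_X _ le_rfl) (by norm_num))))
    (t_Cmul (t_mul (t_X _ le_rfl) (t_X _ le_rfl) (by norm_num)))

noncomputable def P0 (N : ℕ) : MvPolynomial (Sg N) ℝ := X none + C (-1) * ∑ b, eP b

noncomputable def Q0 (N : ℕ) (c : ℝ) : MvPolynomial (Sg N) ℝ :=
  ∑ b, aP b + C (-1) * (∑ b, ∑ b' ∈ Finset.univ.erase b, eP b * bP b') + C (-c) +
    X none * ∑ b, bP b

lemma P0_ma (N : ℕ) (i : Sg N) : (P0 N).degreeOf i ≤ 1 := by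
  classical
  refine d_add ?_ (d_Cmul (d_sum fun b _ => ?_))
  · rw [degreeOf_X]; split_ifs <;> simp
  · rcases i with _ | ⟨c, l⟩
    · exact (d_e' b).trans zero_le_one
    · exact (d_e b c l).trans (by split_ifs <;> simp)

lemma Q0_ma (N : ℕ) (c : ℝ) (i : Sg N) : (Q0 N c).degreeOf i ≤ 1 := by
  classical
  rcases i with _ | ⟨c', l⟩
  · refine d_add (d_add (d_add ?_ (d_Cmul ?_)) (d_C _ _ _)) ?_
    · exact d_sum fun b _ => (d_a' b).trans zero_le_one
    · exact d_sum fun b _ => d_sum fun b' _ => d_mul (d_e' b) (d_b' b') (by norm_num)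
    · refine d_mul (k := 1) (l := 0) ?_ (d_sum fun b _ => d_b' b) (by norm_num)
      simp
  · refine d_add (d_add (d_add ?_ (d_Cmul ?_)) (d_C _ _ _)) ?_
    · exact d_sum fun b _ => (d_a b c' l).trans (by split_ifs <;> simp)
    · refine d_sum fun b _ => d_sum fun b' hb' => d_mul (d_e b c' l) (d_b b' c' l) ?_
      have : b' ≠ b := Finset.ne_of_mem_erase hb'
      split_ifs <;> simp_all
    · refine d_mul (k := 0) (l := 1) ?_ (d_sum fun b _ => (d_b b c' l).trans ?_) (by norm_num)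
      · rw [degreeOf_X]; simp
      · split_ifs <;> simp

lemma P0_t (N : ℕ) : (P0 N).totalDegree ≤ 4 :=
  t_add (t_X _ (by norm_num)) (t_Cmul (t_sum fun b _ => (t_e b).trans (by norm_num)))

lemma Q0_t (N : ℕ) (c : ℝ) : (Q0 N c).totalDegree ≤ 4 :=
  t_add (t_add (t_add (t_sum fun b _ => t_a b)
    (t_Cmul (t_sum fun b _ => t_sum fun b' _ => t_mul (t_e b) (t_b b') (by norm_num)))) (t_C _ _))
    (t_mul (t_X _ le_rfl) (t_sum fun b _ => t_b b) (by norm_num))

/-! ## The zero set -/

lemma eval_P0 (x : Sg N → ℝ) :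
    eval x (P0 N) = x none - ∑ b, (x (some (b, 0)) + x (some (b, 1)) + x (some (b, 2))) := by
  simp [P0, eP, xx, map_sum]
  ring

lemma eval_Q0 (x : Sg N → ℝ) (c : ℝ)
    (h : x none = ∑ b, (x (some (b, 0)) + x (some (b, 1)) + x (some (b, 2)))) :
    eval x (Q0 N c) = ∑ b, psi (x (some (b, 0))) (x (some (b, 1))) (x (some (b, 2))) - c := by
  classical
  have e1 : ∀ b, psi (x (some (b, 0))) (x (some (b, 1))) (x (some (b, 2))) =
      eval x (aP b) + eval x (eP b) * eval x (bP b) := by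
    intro b
    simp only [psi, aP, eP, bP, xx, map_add, map_mul, eval_X, eval_C]
    ring
  have e2 : ∀ b : Fin N, ∑ b' ∈ Finset.univ.erase b, eval x (bP b') =
      ∑ b', eval x (bP b') - eval x (bP b) := by
    intro b
    rw [← Finset.add_sum_erase Finset.univ _ (Finset.mem_univ b)]
    ring
  have e3 : x none = ∑ b, eval x (eP b) := by
    rw [h]
    refine Finset.sum_congr rfl fun b _ => ?_
    simp only [eP, xx, map_add, eval_X]
  simp only [Q0, map_add, map_mul, eval_X, eval_C, map_sum]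
  simp_rw [← Finset.mul_sum, e2, e1, mul_sub]
  rw [e3, Finset.sum_add_distrib, Finset.sum_sub_distrib, Finset.sum_mul]
  ring

/-- The sign attached to a Boolean. -/
def sg (b : Bool) : ℝ := if b then 1 else -1

/-- The centre `(1, 1, -1)`. -/
def cen (k : Fin 3) : ℝ := if k = 2 then -1 else 1

lemma cen0 : cen 0 = 1 := by simp [cen]
lemma cen1 : cen 1 = 1 := by simp [cen]
lemma cen2 : cen 2 = -1 := by simp [cen]
lemma sgt : sg true = 1 := by simp [sg]
lemma sgf : sg false = -1 := by simp [sg]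

lemma psi_box (s : Bool) (v : Fin 3 → ℝ) (h : ∀ k, |v k - sg s * cen k| ≤ 1 / 10) :
    psi (v 0) (v 1) (v 2) ≤ 1 - ((v 0 - sg s * cen 0) ^ 2 + (v 1 - sg s * cen 1) ^ 2 +
      (v 2 - sg s * cen 2) ^ 2) / 2 := by
  have h0 := h 0
  have h1 := h 1
  have h2 := h 2
  cases s
  · rw [sgf, cen0] at h0
    rw [sgf, cen1] at h1
    rw [sgf, cen2] at h2
    rw [sgf, cen0, cen1, cen2]
    have := psi_le (-(v 0 - -1 * 1)) (-(v 1 - -1 * 1)) (-(v 2 - -1 * -1)) (by rwa [abs_neg])
      (by rwa [abs_neg]) (by rwa [abs_neg])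
    rw [← psi_neg] at this
    refine le_trans (le_of_eq ?_) (this.trans (le_of_eq ?_)) <;> ring_nf
  · rw [sgt, cen0] at h0
    rw [sgt, cen1] at h1
    rw [sgt, cen2] at h2
    rw [sgt, cen0, cen1, cen2]
    have := psi_le (v 0 - 1 * 1) (v 1 - 1 * 1) (v 2 - 1 * -1) h0 h1 h2
    refine le_trans (le_of_eq ?_) (this.trans (le_of_eq ?_)) <;> ring_nf

lemma exists_u : ∃ u : ℝ, |u| < 1 / 10 ∧ psi (1 + u) 1 (-1) = 1 - 1 / 400 := by
  have hc : ContinuousOn (fun u : ℝ => psi (1 + u) 1 (-1)) (Icc 0 (1 / 10)) := by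
    unfold psi; fun_prop
  have h := intermediate_value_Icc' (by norm_num) hc
  have h0 : psi (1 + 0) 1 (-1) = 1 := by unfold psi; norm_num
  have h1 : psi (1 + 1 / 10) 1 (-1) ≤ 1 - 1 / 200 := by unfold psi; norm_num
  obtain ⟨u, ⟨hu0, hu1⟩, hu⟩ := h (show (1 - 1 / 400 : ℝ) ∈ Icc (psi (1 + 1 / 10) 1 (-1)) (psi (1 + 0) 1 (-1)) by
    rw [h0]; constructor <;> linarith)
  refine ⟨u, ?_, hu⟩
  rw [abs_of_nonneg hu0]
  refine lt_of_le_of_ne hu1 ?_
  rintro rfl
  simp only at hu
  linarith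

lemma psi_sg (s : Bool) (x y z : ℝ) : psi (sg s * x) (sg s * y) (sg s * z) = psi x y z := by
  cases s
  · rw [sgf, neg_one_mul, neg_one_mul, neg_one_mul, psi_neg]
  · rw [sgt, one_mul, one_mul, one_mul]

/-- The pair of polynomials in `3 N + 1` variables. -/
theorem main (N : ℕ) (hN : 1 ≤ N) : ∃ P Q : MvPolynomial (Fin (3 * N + 1)) ℝ,
    MultiAffine P ∧ MultiAffine Q ∧ P.totalDegree ≤ 4 ∧ Q.totalDegree ≤ 4 ∧
      (2 ^ N : ℕ∞) ≤ ENat.card (ConnectedComponents (zeros P Q)) := by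
  classical
  have hcard : Fintype.card (Sg N) = 3 * N + 1 := by simp [Sg]; ring
  let e : Sg N ≃ Fin (3 * N + 1) := Fintype.equivFinOfCardEq hcard
  set c : ℝ := N - 1 / 400 with hc
  refine ⟨rename e (P0 N), rename e (Q0 N c), ?_, ?_, (totalDegree_rename_le _ _).trans (P0_t N),
    (totalDegree_rename_le _ _).trans (Q0_t N c), ?_⟩
  · intro i
    obtain ⟨j, rfl⟩ := e.surjective i
    rw [degreeOf_rename_of_injective e.injective]
    exact P0_ma N j
  · intro i
    obtain ⟨j, rfl⟩ := e.surjective i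
    rw [degreeOf_rename_of_injective e.injective]
    exact Q0_ma N c j
  set Z : Set (Fin (3 * N + 1) → ℝ) := zeros (rename e (P0 N)) (rename e (Q0 N c)) with hZ
  have memZ : ∀ x : Fin (3 * N + 1) → ℝ, x ∈ Z ↔
      (x (e none) = ∑ b, (x (e (some (b, 0))) + x (e (some (b, 1))) + x (e (some (b, 2)))) ∧
        ∑ b, psi (x (e (some (b, 0)))) (x (e (some (b, 1)))) (x (e (some (b, 2)))) = c) := by
    intro x
    simp only [hZ, zeros, Set.mem_ofPred_eq, eval_rename, eval_P0, Function.comp]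
    constructor
    · rintro ⟨h1, h2⟩
      have h1' := sub_eq_zero.mp h1
      refine ⟨h1', ?_⟩
      have := eval_Q0 (x ∘ e) c h1'
      simp only [Function.comp] at this
      exact sub_eq_zero.mp (this.symm.trans h2)
    · rintro ⟨h1, h2⟩
      refine ⟨sub_eq_zero.mpr h1, ?_⟩
      have := eval_Q0 (x ∘ e) c h1
      simp only [Function.comp] at this
      exact this.trans (sub_eq_zero.mpr h2)
  let U : (Fin N → Bool) → Set Z := fun s =>
    {x | ∀ b k, |x.1 (e (some (b, k))) - sg (s b) * cen k| < 1 / 10}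
  have hcl : ∀ s, U s = {x : Z | ∀ b k, |x.1 (e (some (b, k))) - sg (s b) * cen k| ≤ 1 / 10} := by
    intro s
    ext x
    simp only [U, Set.mem_ofPred_eq]
    refine ⟨fun h b k => (h b k).le, fun h b k => ?_⟩
    have hx := ((memZ x.1).mp x.2).2
    have hb : ∀ b, psi (x.1 (e (some (b, 0)))) (x.1 (e (some (b, 1)))) (x.1 (e (some (b, 2)))) ≤
        1 - ((x.1 (e (some (b, 0))) - sg (s b) * cen 0) ^ 2 +
          (x.1 (e (some (b, 1))) - sg (s b) * cen 1) ^ 2 +
          (x.1 (e (some (b, 2))) - sg (s b) * cen 2) ^ 2) / 2 := fun b =>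
      psi_box (s b) (fun k => x.1 (e (some (b, k)))) (h b)
    have hb1 : ∀ b', psi (x.1 (e (some (b', 0)))) (x.1 (e (some (b', 1)))) (x.1 (e (some (b', 2)))) ≤ 1 := by
      intro b'
      refine (hb b').trans ?_
      have : 0 ≤ (x.1 (e (some (b', 0))) - sg (s b') * cen 0) ^ 2 +
          (x.1 (e (some (b', 1))) - sg (s b') * cen 1) ^ 2 +
          (x.1 (e (some (b', 2))) - sg (s b') * cen 2) ^ 2 := by positivity
      linarith
    have hsum : c ≤ psi (x.1 (e (some (b, 0)))) (x.1 (e (some (b, 1)))) (x.1 (e (some (b, 2)))) +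
        (N - 1 : ℝ) := by
      rw [← hx, ← Finset.add_sum_erase Finset.univ _ (Finset.mem_univ b)]
      gcongr
      refine (Finset.sum_le_card_nsmul _ _ 1 fun b' _ => hb1 b').trans ?_
      rw [Finset.card_erase_of_mem (Finset.mem_univ b), Finset.card_univ, Fintype.card_fin]
      simp [Nat.cast_sub hN]
    have hd : (x.1 (e (some (b, k))) - sg (s b) * cen k) ^ 2 ≤ 1 / 200 := by
      have h0 := hb b
      have p0 := sq_nonneg (x.1 (e (some (b, 0))) - sg (s b) * cen 0)
      have p1 := sq_nonneg (x.1 (e (some (b, 1))) - sg (s b) * cen 1)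
      have p2 := sq_nonneg (x.1 (e (some (b, 2))) - sg (s b) * cen 2)
      rw [hc] at hsum
      fin_cases k <;> simp only [Fin.zero_eta, Fin.mk_one, Fin.reduceFinMk, Fin.isValue] <;> linarith
    exact abs_lt_of_sq_lt_sq (by linarith) (by norm_num)
  have hco : ∀ (b : Fin N) (k : Fin 3) (a : ℝ), Continuous fun x : Z => |x.1 (e (some (b, k))) - a| :=
    fun b k a => (((continuous_apply (e (some (b, k)))).comp continuous_subtype_val).sub
      continuous_const).abs
  have key := components_ge U ?_ ?_ ?_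
  · refine le_trans (le_of_eq ?_) key
    simp
  · intro s
    refine ⟨?_, ?_⟩
    · rw [hcl s]
      simp only [Set.ofPred_forall]
      refine isClosed_iInter fun b => isClosed_iInter fun k => ?_
      exact isClosed_le (hco b k _) continuous_const
    · simp only [U, Set.ofPred_forall]
      refine isOpen_iInter_of_finite fun b => isOpen_iInter_of_finite fun k => ?_
      exact isOpen_lt (hco b k _) continuous_const
  · intro s s' hne
    rw [Set.disjoint_left]
    intro x hx hx'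
    obtain ⟨b, hb⟩ := Function.ne_iff.mp hne
    have h1 := abs_lt.mp (hx b 0)
    have h2 := abs_lt.mp (hx' b 0)
    rw [cen0] at h1 h2
    cases hs : s b <;> cases hs' : s' b <;> rw [hs] at h1 hb <;> rw [hs'] at h2 hb
    · exact hb rfl
    · rw [sgf] at h1; rw [sgt] at h2; linarith [h1.2, h2.1]
    · rw [sgt] at h1; rw [sgf] at h2; linarith [h1.1, h2.2]
    · exact hb rfl
  · intro s
    obtain ⟨u, hu, hu'⟩ := exists_u
    let b0 : Fin N := ⟨0, hN⟩
    let v : Fin N → Fin 3 → ℝ := fun b k => sg (s b) * (cen k + if b = b0 ∧ k = 0 then u else 0)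
    let y : Sg N → ℝ := fun i => match i with
      | none => ∑ b, (v b 0 + v b 1 + v b 2)
      | some (b, k) => v b k
    have hy : ∀ i, (y ∘ e.symm) (e i) = y i := fun i => by simp
    refine ⟨⟨y ∘ e.symm, (memZ _).mpr ?_⟩, ?_⟩
    · simp only [hy]
      refine ⟨rfl, ?_⟩
      have : ∀ b, psi (y (some (b, 0))) (y (some (b, 1))) (y (some (b, 2))) =
          if b = b0 then 1 - 1 / 400 else 1 := by
        intro b
        have v0 : v b 0 = sg (s b) * (1 + if b = b0 then u else 0) := by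
          simp only [v, cen0, and_true]
        have v1 : v b 1 = sg (s b) * 1 := by simp [v, cen1]
        have v2 : v b 2 = sg (s b) * -1 := by simp [v, cen2]
        change psi (v b 0) (v b 1) (v b 2) = _
        rw [v0, v1, v2, psi_sg]
        split_ifs with h
        · exact hu'
        · unfold psi; norm_num
      rw [Finset.sum_congr rfl fun b _ => this b,
        ← Finset.add_sum_erase Finset.univ _ (Finset.mem_univ b0)]
      rw [Finset.sum_congr rfl (g := fun _ => (1 : ℝ)) fun b hb => by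
        rw [if_neg (Finset.ne_of_mem_erase hb)]]
      simp only [if_true, Finset.sum_const, Finset.card_erase_of_mem (Finset.mem_univ b0),
        Finset.card_univ, Fintype.card_fin, hc, nsmul_eq_mul, Nat.cast_sub hN]
      push_cast
      ring
    · simp only [U, Set.mem_ofPred_eq, hy]
      intro b k
      simp only [y, v]
      rw [mul_add, add_sub_cancel_left, abs_mul]
      have : |sg (s b)| = 1 := by cases s b <;> simp [sg]
      rw [this, one_mul]
      split_ifs
      · exact hu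
      · simp

/-- For every `N ≥ 1` there are two multi-affine polynomials of total degree at most `4` in
`3 N + 1` real variables whose common zero set has at least `2 ^ N` connected components; so for
`d = 4` no bound on the number of components can be independent of the number of variables. -/
theorem result :
    (∀ N : ℕ, 1 ≤ N → ∃ P Q : MvPolynomial (Fin (3 * N + 1)) ℝ,
      MultiAffine P ∧ MultiAffine Q ∧ P.totalDegree ≤ 4 ∧ Q.totalDegree ≤ 4 ∧
        (2 ^ N : ℕ∞) ≤ ENat.card (ConnectedComponents (zeros P Q))) ∧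
    ¬ (∀ d : ℕ, 1 ≤ d → ∃ B : ℕ, ∀ n : ℕ, 1 ≤ n → ∀ P Q : MvPolynomial (Fin n) ℝ,
      MultiAffine P → MultiAffine Q → P.totalDegree ≤ d → Q.totalDegree ≤ d →
        ENat.card (ConnectedComponents (zeros P Q)) ≤ B) := by
  refine ⟨main, fun H => ?_⟩
  obtain ⟨B, hB⟩ := H 4 (by norm_num)
  obtain ⟨P, Q, h1, h2, h3, h4, h5⟩ := main (B + 1) (by omega)
  have h6 := h5.trans (hB _ (by omega) P Q h1 h2 h3 h4)
  have h7 : (2 : ℕ) ^ (B + 1) ≤ B := by exact_mod_cast h6
  have h8 : B + 1 < 2 ^ (B + 1) := Nat.lt_two_pow_self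
  omega

end Pool.Agent.Results.MP_12b847_ag.UnboundedComponents
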